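import Pool.Agent.L7h16.ZA.Main
import Pool.Agent.R313.FM.Main
import Pool.Agent.L7h20.TM4.Main

set_option autoImplicit false

/-!
# MP_91b7ff_nt: the first and the third moment at the distance `δ / log T` from the critical line

For `k = 1` and `k = 3` the moment of `|ζ(1/2 + δ / log T + it)|^k` over `[a, a + H]` is
`(1 + O(exp(-c δ)) + o(1)) A(k/2) (log T / (2 δ))^(k²/4) H`, uniformly for `1 ≤ δ = o(log T)` and for all intervals in
`[0, T]` with `H ≥ T / (log T)^α` (`k = 1`: all `α`; `k = 3`: all `α < 1`), where `A(k/2)` is the arithmetic factor of the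
conjectured constant `c_k`. For general `k` the same follows from an upper bound of the right order on the critical line.
-/

open MeasureTheory Set Filter Topology

namespace Pool.Agent.Results.MP_91b7ff_nt.AsymptoticsNearTheLine

/-- the moment of order `k` over `[a, a + H]` on the vertical line through `1/2 + δ / log T` -/
noncomputable def M (k : ℕ) (δ T a H : ℝ) : ℝ :=
  ∫ t in a..(a + H), ‖riemannZeta ((1 / 2 + δ / Real.log T : ℝ) + t * Complex.I)‖ ^ k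

/-- the coefficient of `x ^ m` in `(1 - x) ^ (-κ)` -/
noncomputable def d (κ : ℝ) (m : ℕ) : ℝ := ∏ i ∈ Finset.range m, (κ + i) / (i + 1)

/-- the arithmetic factor of the conjectured constant for the exponent `2 κ` -/
noncomputable def A (κ : ℝ) : ℝ :=
  ∏' p : Nat.Primes, ((1 - 1 / (p : ℝ)) ^ (κ ^ 2) * ∑' m : ℕ, d κ m ^ 2 * (1 / (p : ℝ)) ^ m)

/-- the predicted main term -/
noncomputable def main (k : ℕ) (δ T H : ℝ) : ℝ :=
  A (k / 2) * (Real.log T / (2 * δ)) ^ ((k : ℝ) ^ 2 / 4) * H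

/-- `[a, a + H]` is an interval in `[0, T]` of length at least `T / (log T) ^ α` -/
def Win (α T a H : ℝ) : Prop := 0 ≤ a ∧ a + H ≤ T ∧ T / Real.log T ^ α ≤ H

/-- the asymptotic formula near the line, on all windows -/
def NearLine (k : ℕ) (α : ℝ) : Prop :=
  ∃ C c : ℝ, 0 < C ∧ 0 < c ∧ ∀ ε : ℝ, 0 < ε → ∃ η : ℝ, 0 < η ∧ ∀ᶠ T : ℝ in atTop, ∀ δ : ℝ, 1 ≤ δ → δ ≤ η * Real.log T →
    ∀ a H : ℝ, Win α T a H → |M k δ T a H - main k δ T H| ≤ (C * Real.exp (-(c * δ)) + ε) * main k δ T H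

/-- the upper bound of the right order on the critical line, on all windows -/
def Upper (k : ℕ) (β : ℝ) : Prop :=
  ∃ C : ℝ, ∀ᶠ T : ℝ in atTop, ∀ a H : ℝ, Win β T a H → M k 0 T a H ≤ C * (H * Real.log T ^ ((k : ℝ) ^ 2 / 4))

open Pool.Agent.H306R2 Pool.Agent.W184 Pool.Agent.L7h16.ZA
open Pool.Agent.R313.FM (Adm)

lemma A_eq (κ : ℝ) : A κ = aF κ := rfl

lemma M_eq (k : ℕ) (δ T a H : ℝ) : M k δ T a H = ∫ t in a..(a + H), zn (1 / 2 + δ / Real.log T) t ^ k := rfl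

lemma win_adm {α T a H : ℝ} (hT : 1 < T) (h : Win α T a H) : Adm α T a H := by
  obtain ⟨h1, h2, h3⟩ := h
  have hl : 0 < Real.log T := Real.log_pos hT
  have hp : 0 < Real.log T ^ α := Real.rpow_pos_of_pos hl α
  refine ⟨h1, lt_of_lt_of_le (by positivity) h3, h2, ?_⟩
  rwa [div_le_iff₀ hp] at h3

lemma adm_win {α T a H : ℝ} (hT : 1 < T) (h : Adm α T a H) : Win α T a H := by
  obtain ⟨h1, _, h2, h3⟩ := h
  have hl : 0 < Real.log T := Real.log_pos hT
  have hp : 0 < Real.log T ^ α := Real.rpow_pos_of_pos hl α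
  refine ⟨h1, h2, ?_⟩
  rwa [div_le_iff₀ hp]

lemma kk (k : ℕ) : (k : ℝ) * kh = k / 2 := by unfold kh; push_cast; ring

lemma kk2 (k : ℕ) : ((k : ℝ) * kh) ^ 2 = (k : ℝ) ^ 2 / 4 := by rw [kk]; ring

theorem near_of_upper (k : ℕ) (hk : 1 ≤ k) {α β : ℝ} (hα : 0 ≤ α) (hαβ : α < β) (hU : Upper k β) : NearLine k α := by
  have hUB : UB k β := by
    obtain ⟨C, hC⟩ := hU
    refine ⟨C, ?_⟩
    filter_upwards [hC, eventually_gt_atTop 1] with T hT h1 a H hA
    have h := hT a H (adm_win h1 hA)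
    rw [M_eq, zero_div, add_zero] at h
    rw [kk2]
    exact h
  obtain ⟨C, c, hc, hC, h⟩ := Pool.Agent.L7h16.ZA.main k hk hα hαβ hUB
  refine ⟨C + 1, c, by linarith, hc, fun ε hε => ?_⟩
  obtain ⟨η, hη, h⟩ := h ε hε
  refine ⟨η, hη, ?_⟩
  filter_upwards [h, eventually_gt_atTop 1] with T hT h1 δ hδ1 hδ2 a H hW
  have h2 := hT δ hδ1 hδ2 a H (win_adm h1 hW)
  rw [kk2, kk] at h2
  have h3 : 0 ≤ main k δ T H := by
    have hk1 : (1:ℝ) ≤ k := by exact_mod_cast hk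
    have hl : 0 < Real.log T := Real.log_pos h1
    have hH := (win_adm h1 hW).2.1
    have hA := aF_pos (κ := (k:ℝ) / 2) (by linarith)
    unfold main
    rw [A_eq]
    positivity
  refine le_trans h2 (mul_le_mul_of_nonneg_right ?_ h3)
  have := Real.exp_pos (-(c * δ))
  nlinarith

theorem upper_one (β : ℝ) : Upper 1 β := by
  refine ⟨107 / 50 * Pool.Agent.R313.FM.A0, ?_⟩
  filter_upwards [Pool.Agent.R313.FM.first_upper (α := β), eventually_gt_atTop 1] with T hT h1 a H hW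
  have h := hT a H (win_adm h1 hW)
  unfold Pool.Agent.R313.FM.ZZ Pool.Agent.R313.FM.mm at h
  rw [M_eq]
  simp only [pow_one]
  have e : ((1 : ℕ) : ℝ) ^ 2 / 4 = Pool.Agent.R313.FM.kh ^ 2 := by
    unfold Pool.Agent.R313.FM.kh; norm_num
  rw [e]
  exact h

theorem upper_three (β : ℝ) (hβ : β < 1) : Upper 3 β := by
  refine ⟨(8 / 5) / Real.Gamma (13 / 4) * aF (3 / 2), ?_⟩
  filter_upwards [Pool.Agent.L7h20.TM4.third_upper β hβ] with T hT a H hW
  have h := hT a H hW.1 hW.2.1 hW.2.2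
  have e : ((3 : ℕ) : ℝ) ^ 2 / 4 = 9 / 4 := by norm_num
  rw [e, ← mul_assoc]
  refine le_trans (le_of_eq ?_) h
  unfold M
  refine intervalIntegral.integral_congr fun t _ => ?_
  show ‖riemannZeta ((1 / 2 + 0 / Real.log T : ℝ) + t * Complex.I)‖ ^ 3 = _
  rw [zero_div, add_zero]
  congr 3
  unfold Pool.Agent.H306R2.SM.cl
  push_cast
  ring

/-- from the uniform statement to the asymptotic formula along every `ψ → ∞`, `ψ = o(log T)` -/
theorem along {k : ℕ} {α : ℝ} (hα : 0 ≤ α) (h : NearLine k α) (hk : 1 ≤ k) (ψ : ℝ → ℝ) (h1 : Tendsto ψ atTop atTop)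
    (h2 : Tendsto (fun T => ψ T / Real.log T) atTop (𝓝 0)) :
    Tendsto (fun T => M k (ψ T) T 0 T / (T * (Real.log T / (2 * ψ T)) ^ ((k : ℝ) ^ 2 / 4))) atTop (𝓝 (A (k / 2))) := by
  have hA : 0 < A (k / 2) := by
    rw [A_eq]
    refine aF_pos ?_
    have : (1:ℝ) ≤ k := by exact_mod_cast hk
    linarith
  obtain ⟨C, c, _, hc, h⟩ := h
  rw [Metric.tendsto_nhds]
  intro r hr
  obtain ⟨ε, hε⟩ : ∃ ε : ℝ, ε = r / (4 * A (k / 2)) := ⟨_, rfl⟩
  have hε0 : 0 < ε := by rw [hε]; positivity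
  obtain ⟨η, hη, h⟩ := h ε hε0
  have e1 : ∀ᶠ T : ℝ in atTop, C * Real.exp (-(c * ψ T)) < ε := by
    have : Tendsto (fun T => C * Real.exp (-(c * ψ T))) atTop (𝓝 (C * 0)) := by
      refine Tendsto.const_mul C ?_
      refine Real.tendsto_exp_neg_atTop_nhds_zero.comp ?_
      exact h1.const_mul_atTop hc
    rw [mul_zero] at this
    exact this.eventually_lt_const hε0
  have e2 : ∀ᶠ T : ℝ in atTop, ψ T / Real.log T < η := h2.eventually_lt_const hη
  filter_upwards [h, e1, e2, h1.eventually_ge_atTop 1, eventually_gt_atTop (Real.exp 1)] with T hT h3 h4 h5 h6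
  have hl1 : 1 < Real.log T := by
    rw [Real.lt_log_iff_exp_lt (lt_trans (Real.exp_pos 1) h6)]
    exact h6
  have hl : 0 < Real.log T := by linarith
  have hT0 : 0 < T := lt_trans (Real.exp_pos 1) h6
  have h7 : ψ T ≤ η * Real.log T := by
    rw [div_lt_iff₀ hl] at h4
    exact h4.le
  have hw : Win α T 0 T := by
    refine ⟨le_refl _, by linarith, ?_⟩
    rw [div_le_iff₀ (Real.rpow_pos_of_pos hl α)]
    have : (1:ℝ) ≤ Real.log T ^ α := Real.one_le_rpow hl1.le hα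
    nlinarith
  have h8 := hT (ψ T) h5 h7 0 T hw
  have hψ : 0 < ψ T := by linarith
  set B : ℝ := T * (Real.log T / (2 * ψ T)) ^ ((k : ℝ) ^ 2 / 4) with hB
  have hB0 : 0 < B := by
    have : 0 < Real.log T / (2 * ψ T) := by positivity
    positivity
  have hm : main k (ψ T) T T = A (k / 2) * B := by
    unfold main; rw [hB]; ring
  rw [hm] at h8
  rw [Real.dist_eq]
  have h9 : M k (ψ T) T 0 T / B - A (k / 2) = (M k (ψ T) T 0 T - A (k / 2) * B) / B := by
    field_simp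
  rw [h9, abs_div, abs_of_pos hB0, div_lt_iff₀ hB0]
  refine lt_of_le_of_lt h8 ?_
  have h10 : (C * Real.exp (-(c * ψ T)) + ε) * (A (k / 2) * B) < (ε + ε) * (A (k / 2) * B) := by
    have : 0 < A (k / 2) * B := by positivity
    exact mul_lt_mul_of_pos_right (by linarith) this
  refine lt_trans h10 ?_
  have h11 : (ε + ε) * (A (k / 2) * B) = r / 2 * B := by
    rw [hε]; field_simp; ring
  rw [h11]
  exact mul_lt_mul_of_pos_right (by linarith) hB0

/-- the result -/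
theorem result :
    (∀ α : ℝ, 0 ≤ α → NearLine 1 α) ∧ (∀ α : ℝ, 0 ≤ α → α < 1 → NearLine 3 α) ∧
    (∀ k : ℕ, k = 1 ∨ k = 3 → ∀ ψ : ℝ → ℝ, Tendsto ψ atTop atTop → Tendsto (fun T => ψ T / Real.log T) atTop (𝓝 0) →
      Tendsto (fun T => M k (ψ T) T 0 T / (T * (Real.log T / (2 * ψ T)) ^ ((k : ℝ) ^ 2 / 4))) atTop (𝓝 (A (k / 2)))) ∧
    (∀ (k : ℕ) (α β : ℝ), 1 ≤ k → 0 ≤ α → α < β → Upper k β → NearLine k α) ∧
    (∀ κ : ℝ, 0 < κ → 0 < A κ) := by
  have n1 : ∀ α : ℝ, 0 ≤ α → NearLine 1 α := fun α hα =>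
    near_of_upper 1 le_rfl hα (lt_add_one α) (upper_one (α + 1))
  have n3 : ∀ α : ℝ, 0 ≤ α → α < 1 → NearLine 3 α := fun α hα h1 =>
    near_of_upper 3 (by norm_num) hα (show α < (α + 1) / 2 by linarith) (upper_three ((α + 1) / 2) (by linarith))
  refine ⟨n1, n3, ?_, fun k α β hk hα hαβ hU => near_of_upper k hk hα hαβ hU, fun κ hκ => by rw [A_eq]; exact aF_pos hκ⟩
  rintro k (rfl | rfl) ψ h1 h2
  · exact along le_rfl (n1 0 le_rfl) le_rfl ψ h1 h2
  · exact along le_rfl (n3 0 le_rfl (by norm_num)) (by norm_num) ψ h1 h2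

end Pool.Agent.Results.MP_91b7ff_nt.AsymptoticsNearTheLine
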