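import Pool.Agent.L7h48.FU.Num
import Pool.Agent.L7h11.DP.Main
import Pool.Agent.L7h97.DP.Pnt
import Pool.Agent.L7h97.DP.Bl
import Pool.Agent.L7h32.DP.Ld
import Pool.Agent.L7h32.DP.Sl
import Pool.Agent.L7h32.DP.Sk
import Pool.Agent.L7h47.DP.F
import Pool.Agent.L7h47.DP.Qu
import Pool.Agent.L7h26.DP.Hd
import Pool.Agent.L7h26.DP.Bd
import Pool.Agent.L7h26.DP.Dg

set_option autoImplicit false

/-!
# MP_91b7ff_nt, exponent `k = 1`: upper bounds with explicit constants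

`A` is the arithmetic factor of the Keating-Snaith conjecture; in the normalisation `A / Γ(5/4) * H (log T)^(1/4)` the
conjectured constant is `1.036...`.

1. Constant `34/25 = 1.36` for all intervals with `H ≥ T / (log T)^α`, `α < 1` (helper11, with helper26, helper32,
helper47, helper97).  With `E(τ) = ∑_{log n ≤ τ} d_{1/2}(n) n^(-s)` and
`M(c) = ∑_{log m ≤ c} d_{-1/2}(m) √(c - log m) m^(-s)` one has the exact identity
`∫_0^ℓ E(τ) M(ℓ - τ) dτ = (2/3) ℓ^(3/2)`, so that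
`(2/3) ℓ^(3/2) |ζ| ≤ (1/2) ∫_0^ℓ (r(τ) |E(τ)|² + |ζ M(ℓ - τ)|² / r(τ)) dτ`; the second mean value comes from the twisted
second moment of the zeta function with polynomials of length `T^θ`, `θ < 14/27` (starting library), and Selberg's
diagonalisation.

2. Constant `K(θ) + ε`, `K(θ) = 2 Γ(9/8)^2 / Γ(9/4) * (θ^(5/4) + (1 - θ)^(5/4)) / (2θ - 1)`, for all intervals with
`H ≥ T^θ`, `1/2 < θ ≤ 1` (helper48): the approximate functional equation averaged over the lengths `T^v`,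
`1 - θ ≤ v ≤ θ`, gives `|ζ| ≤ 2 |J(θ) - J(1 - θ)| / ((2θ - 1) log T)` up to small errors, with
`J(x) = ∑ (x log T - log n)_+ n^(-s)`, and `J(x)` is the convolution `∫_0^x A(v) A(x - v) dv` of the partial sums of
`ζ^(1/2)`.
-/

namespace Pool.Agent.Results.MP_91b7ff_nt.FirstMomentUpper

open Filter MeasureTheory

/-- the arithmetic factor of the conjectured constant `c_1`,
`A = ∏_p (1 - 1/p)^(1/4) ∑_m d(m)² p^(-m)` with `d(m) = ∏_{i < m} (1/2 + i) / (i + 1)` -/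
noncomputable def A : ℝ :=
  ∏' p : Nat.Primes, ((1 - 1 / (p : ℝ)) ^ ((1 : ℝ) / 4) *
    ∑' m : ℕ, (∏ i ∈ Finset.range m, ((1 : ℝ) / 2 + i) / ((i : ℝ) + 1)) ^ 2 * (1 / (p : ℝ)) ^ m)

/-- the constant `2 B(9/8, 9/8) (θ^(5/4) + (1 - θ)^(5/4)) / (2θ - 1)` -/
noncomputable def K (θ : ℝ) : ℝ :=
  2 * (Real.Gamma (9 / 8) ^ 2 / Real.Gamma (9 / 4)) *
    (θ ^ ((5 : ℝ) / 4) + (1 - θ) ^ ((5 : ℝ) / 4)) / (2 * θ - 1)

theorem A_eq : A = Pool.Agent.H306R2.aF (1 / 2) := by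
  unfold A Pool.Agent.H306R2.aF Pool.Agent.H306R2.lc
  norm_num

theorem K_eq (θ : ℝ) : K θ = Pool.Agent.L7h48.FU.CC θ := by
  unfold K Pool.Agent.L7h48.FU.CC
  rw [Pool.Agent.L7h48.FU.BB_eq]

theorem A0_eq : Pool.Agent.L7h48.FU.A0 = A / Real.Gamma (5 / 4) := by
  unfold Pool.Agent.L7h48.FU.A0
  rw [A_eq]

theorem A0_eq' : Pool.Agent.L7h11.DP.A0 = A / Real.Gamma (5 / 4) := by
  unfold Pool.Agent.L7h11.DP.A0
  rw [A_eq]

theorem cl_eq (t : ℝ) : Pool.Agent.L7h48.FU.cl t = 1 / 2 + t * Complex.I := by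
  unfold Pool.Agent.L7h48.FU.cl
  push_cast
  ring

theorem cl_eq' (t : ℝ) : Pool.Agent.H306R2.SM.cl t = 1 / 2 + t * Complex.I := by
  unfold Pool.Agent.H306R2.SM.cl
  push_cast
  ring

theorem K_one : K 1 ≤ 7903 / 5000 := by
  rw [K_eq]
  unfold Pool.Agent.L7h48.FU.CC
  have h1 := Pool.Agent.L7h48.FU.BB_le
  rw [Real.one_rpow, sub_self, Real.zero_rpow (by norm_num)]
  norm_num
  linarith

theorem main {θ C : ℝ} (h1 : 1 / 2 < θ) (h2 : θ ≤ 1) (hC : K θ < C) :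
    ∀ᶠ T : ℝ in atTop, ∀ U H : ℝ, 0 ≤ U → U + H ≤ T → T ^ θ ≤ H →
      ∫ t in U..(U + H), ‖riemannZeta (1 / 2 + t * Complex.I)‖ ≤
        C * (A / Real.Gamma (5 / 4)) * (H * Real.log T ^ ((1 : ℝ) / 4)) := by
  have hA := Pool.Agent.L7h48.FU.A0_pos
  have h := Pool.Agent.L7h48.FU.upper (θ := θ) (C := Pool.Agent.L7h48.FU.A0 * C) h1 h2 (by
    rw [← K_eq]
    exact mul_lt_mul_of_pos_left hC hA)
  filter_upwards [h] with T hT U H hU hUH hH
  have h3 := hT U H hU hUH hH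
  simp_rw [cl_eq] at h3
  rw [A0_eq] at h3
  refine h3.trans (le_of_eq ?_)
  ring

theorem qu : Pool.Agent.L7h11.DP.S_QU :=
  Pool.Agent.L7h47.DP.s_qu Pool.Agent.L7h26.DP.s_dg
    (Pool.Agent.L7h26.DP.s_bd
      (Pool.Agent.L7h97.DP.s_bl (Pool.Agent.L7h47.DP.s_f Pool.Agent.L7h97.DP.s_pnt Pool.Agent.L7h32.DP.s_ld))
      Pool.Agent.L7h26.DP.s_hd)
    (Pool.Agent.L7h32.DP.s_sl Pool.Agent.L7h26.DP.s_hd) Pool.Agent.L7h32.DP.s_sk

theorem long (α : ℝ) (hα : α < 1) :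
    ∀ᶠ T : ℝ in atTop, ∀ U H : ℝ, 0 ≤ U → U + H ≤ T → T / Real.log T ^ α ≤ H →
      ∫ t in U..(U + H), ‖riemannZeta (1 / 2 + t * Complex.I)‖ ≤
        34 / 25 * (A / Real.Gamma (5 / 4)) * (H * Real.log T ^ ((1 : ℝ) / 4)) := by
  filter_upwards [Pool.Agent.L7h11.DP.first_upper qu α hα] with T hT U H hU hUH hH
  have h3 := hT U H hU hUH hH
  simp_rw [cl_eq'] at h3
  rw [A0_eq'] at h3
  refine h3.trans (le_of_eq ?_)
  ring

/-- the bound for `|ζ|` over the intervals `[U, U + H]`, `H ≥ T^θ`; the constant is `34/25` if moreover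
`H ≥ T / (log T)^α`, and `K(θ) + ε` otherwise -/
theorem result :
    (∀ θ α ε : ℝ, 1 / 2 < θ → θ ≤ 1 → α < 1 → 0 < ε →
      ∀ᶠ T : ℝ in atTop, ∀ U H : ℝ, 0 ≤ U → U + H ≤ T → T ^ θ ≤ H →
        ∫ t in U..(U + H), ‖riemannZeta (1 / 2 + t * Complex.I)‖ ≤
          (if T / Real.log T ^ α ≤ H then 34 / 25 else K θ + ε) *
            (A / Real.Gamma (5 / 4)) * (H * Real.log T ^ ((1 : ℝ) / 4))) ∧
    K 1 ≤ 7903 / 5000 := by
  refine ⟨fun θ α ε h1 h2 hα hε => ?_, K_one⟩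
  filter_upwards [long α hα, main (θ := θ) (C := K θ + ε) h1 h2 (by linarith)] with T a b U H hU hUH hH
  by_cases h : T / Real.log T ^ α ≤ H
  · rw [if_pos h]
    exact a U H hU hUH h
  · rw [if_neg h]
    exact b U H hU hUH hH

end Pool.Agent.Results.MP_91b7ff_nt.FirstMomentUpper
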