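import Pool.Agent.L7h13.MX.Riem

set_option autoImplicit false

/-!
# MP_91b7ff_nt: the moments are stable at the scale of the mean spacing of the zeros, all real exponents

For all real `k > 0`: a local maximal inequality for `|ζ|^k` in discs with radius `8 / log T` around the points of the
critical line, stability of the moments in windows under displacements by `ε / log T`, and the equivalence of the
asymptotic formula for the `k`-th moment with the same asymptotic formula for all curves, local extrema, local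
averages and Riemann sums at distance `o(1 / log t)`.
-/

open MeasureTheory Set Filter Topology Complex

namespace Pool.Agent.Results.MP_91b7ff_nt.StabilityAtMeanSpacing

/-- the point with height `t` of the critical line -/
noncomputable def pt (t : ℝ) : ℂ := 1 / 2 + t * I

/-- the modulus of zeta on the critical line -/
noncomputable def z (t : ℝ) : ℝ := ‖riemannZeta (pt t)‖

/-- the `k`-th moment -/
noncomputable def M (k T : ℝ) : ℝ := ∫ t in (0 : ℝ)..T, z t ^ k

/-- the number `v` is between two values of `|ζ|^k` in the disc with radius `r` around `pt t` -/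
def Between (k r t v : ℝ) : Prop :=
  ∃ s s' : ℂ, ‖s - pt t‖ ≤ r ∧ ‖s' - pt t‖ ≤ r ∧ ‖riemannZeta s‖ ^ k ≤ v ∧ v ≤ ‖riemannZeta s'‖ ^ k

theorem result (k : ℝ) (hk : 0 < k) :
    -- windows: local maximal inequality and stability
    (∃ C T₀ : ℝ, ∀ T a b : ℝ, T₀ ≤ T → T ≤ a → a ≤ b → b ≤ 8 * T →
      (∃ W : ℝ → ℝ, Continuous W ∧
        (∀ t ∈ Icc a b, ∀ s : ℂ, ‖s - pt t‖ ≤ 8 / Real.log T → ‖riemannZeta s‖ ^ k ≤ W t) ∧
        ∫ t in a..b, W t ≤ C * ((∫ t in (a - 4 * Real.log T)..(b + 4 * Real.log T), z t ^ k) +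
          (b - a + 1) * T ^ (-(k / 4)))) ∧
      ∀ (ε : ℝ) (V : ℝ → ℝ), 0 ≤ ε → ε ≤ 1 → Measurable V → (∀ t ∈ Icc a b, Between k (ε / Real.log T) t (V t)) →
        IntervalIntegrable V volume a b ∧
        |(∫ t in a..b, V t) - ∫ t in a..b, z t ^ k| ≤ C * ε ^ (min 1 k) *
          ((∫ t in (a - 4 * Real.log T)..(b + 4 * Real.log T), z t ^ k) + (b - a + 1) * T ^ (-(k / 4)))) ∧
    -- all functions between two values at distance `o(1 / log t)` have the same asymptotic formula
    (∀ V : ℝ → ℝ, Measurable V → (∀ ε : ℝ, 0 < ε → ∀ᶠ t : ℝ in atTop, Between k (ε / Real.log t) t (V t)) →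
      ∃ T₁ : ℝ, (∀ T, T₁ ≤ T → IntervalIntegrable V volume T₁ T) ∧ ∀ A c : ℝ, 0 ≤ A →
        (Tendsto (fun T : ℝ => M k T / (T * Real.log T ^ A)) atTop (𝓝 c) ↔
          Tendsto (fun T : ℝ => (∫ t in T₁..T, V t) / (T * Real.log T ^ A)) atTop (𝓝 c))) ∧
    -- Riemann sums
    (∀ (t : ℕ → ℝ) (s : ℕ → ℂ), Monotone t → Tendsto t atTop atTop →
      Tendsto (fun n => (t (n + 1) - t n) * Real.log (t n)) atTop (𝓝 0) →
      Tendsto (fun n => ‖s n - pt (t n)‖ * Real.log (t n)) atTop (𝓝 0) → ∀ A c : ℝ, 0 ≤ A →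
        (Tendsto (fun T : ℝ => M k T / (T * Real.log T ^ A)) atTop (𝓝 c) ↔
          Tendsto (fun N : ℕ => (∑ n ∈ Finset.range N, (t (n + 1) - t n) * ‖riemannZeta (s n)‖ ^ k) /
            (t N * Real.log (t N) ^ A)) atTop (𝓝 c))) := by
  refine ⟨?_, fun V hV h => ?_, fun t s h1 h2 h3 h4 A c hA => ?_⟩
  · obtain ⟨C, T₀, -, -, h⟩ := Pool.Agent.L7h13.MX.stabV hk
    exact ⟨C, T₀, h⟩
  · obtain ⟨T₁, -, h1, -, h2⟩ := Pool.Agent.L7h13.MX.equiv hk hV h
    exact ⟨T₁, h1, h2⟩
  · exact Pool.Agent.L7h13.MX.riem hk h1 h2 h3 h4 hA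

end Pool.Agent.Results.MP_91b7ff_nt.StabilityAtMeanSpacing
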