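import Pool.Agent.L7h20.TM4.Main

set_option autoImplicit false

/-!
# MP_91b7ff_nt, exponent `k = 3`: upper bound with the constant `8/5` in all intervals

Unconditionally, for every `α < 1`, all large `T` and every interval `[U, U + H]` inside `[0, T]` with
`H ≥ T / (log T)^α`, the integral of `|ζ(1/2 + it)|^3` over `[U, U + H]` is at most
`(8/5) A_3 / Γ(13/4) * H (log T)^(9/4)`, where `A_3` is the arithmetic factor of the Keating-Snaith conjecture
(which predicts `1.144... A_3 / Γ(13/4)`).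
-/

namespace Pool.Agent.Results.MP_91b7ff_nt.ThirdMomentUpper

open Filter MeasureTheory

/-- the arithmetic factor of the conjectured constant `c_3`,
`A_3 = ∏_p (1 - 1/p)^(9/4) ∑_m d(m)² p^(-m)` with `d(m) = ∏_{i < m} (3/2 + i) / (i + 1)` -/
noncomputable def A3 : ℝ :=
  ∏' p : Nat.Primes, ((1 - 1 / (p : ℝ)) ^ (9 / 4 : ℝ) *
    ∑' m : ℕ, (∏ i ∈ Finset.range m, ((3 : ℝ) / 2 + i) / ((i : ℝ) + 1)) ^ 2 * (1 / (p : ℝ)) ^ m)

theorem A3_eq : A3 = Pool.Agent.H306R2.aF (3 / 2) := by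
  unfold A3 Pool.Agent.H306R2.aF Pool.Agent.H306R2.lc
  rw [show ((3 : ℝ) / 2) ^ 2 = 9 / 4 by norm_num]

theorem result (α : ℝ) (hα : α < 1) :
    ∀ᶠ T : ℝ in atTop, ∀ U H : ℝ, 0 ≤ U → U + H ≤ T → T / Real.log T ^ α ≤ H →
      ∫ t in U..(U + H), ‖riemannZeta (1 / 2 + t * Complex.I)‖ ^ 3 ≤
        8 / 5 * A3 / Real.Gamma (13 / 4) * (H * Real.log T ^ (9 / 4 : ℝ)) := by
  rw [A3_eq]
  filter_upwards [Pool.Agent.L7h20.TM4.third_upper α hα] with T hT U H hU hUH hH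
  refine (hT U H hU hUH hH).trans (le_of_eq ?_)
  ring

end Pool.Agent.Results.MP_91b7ff_nt.ThirdMomentUpper
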